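import Mathlib
import Pool.Agent.N248.SD.G
set_option autoImplicit false

/-! The Hardy-Littlewood-Sobolev inequality on the diagonal, for the kernel `(1+|v|²)^(-(m-1)/2)`,
from the layer cake formula. -/

namespace Pool.Agent.N773.SC

open MeasureTheory Set Metric
open scoped ENNReal
open Pool.Agent.N248.SD (br br_meas Rz Rz_ne_top pot_all En)

abbrev E (n : ℕ) := EuclideanSpace ℝ (Fin n)

theorem br_neg (m : ℕ) (v : E m) : br m (-v) = br m v := by
  unfold br; rw [norm_neg]

/-- the energy of two sets -/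
noncomputable def E2 (m : ℕ) (A B : Set (E m)) : ℝ≥0∞ := ∫⁻ y in A, ∫⁻ w in B, br m (w - y)

theorem E2_le (m : ℕ) (hm : 1 ≤ m) (A B : Set (E m)) (hB : MeasurableSet B) :
    E2 m A B ≤ (Rz m + 1) * (volume A * volume B ^ (1 / (m : ℝ))) := by
  unfold E2
  refine (lintegral_mono fun y => pot_all m hm B hB y).trans (le_of_eq ?_)
  rw [lintegral_const, Measure.restrict_apply_univ]
  ring

theorem E2_symm (m : ℕ) (A B : Set (E m)) : E2 m A B = E2 m B A := by
  unfold E2
  rw [lintegral_lintegral_swap (by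
    exact ((br_meas m).comp (measurable_snd.sub measurable_fst)).aemeasurable)]
  refine lintegral_congr fun y => lintegral_congr fun w => ?_
  rw [← br_neg, neg_sub]

variable {m : ℕ}

/-- the distribution function -/
noncomputable def df (h : E m → ℝ) (t : ℝ) : ℝ≥0∞ := volume {y | t < h y}

theorem df_anti (h : E m → ℝ) : Antitone (df h) := fun _ _ hst =>
  measure_mono fun _ hy => lt_of_le_of_lt hst hy

theorem df_meas (h : E m → ℝ) : Measurable (df h) := (df_anti h).measurable

theorem layer (x : ℝ) :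
    ENNReal.ofReal x = ∫⁻ s in Ioi (0 : ℝ), (Iio x).indicator 1 s := by
  rw [← lintegral_indicator measurableSet_Ioi]
  have : ∀ s : ℝ, (Ioi (0 : ℝ)).indicator ((Iio x).indicator (1 : ℝ → ℝ≥0∞)) s =
      (Ioo 0 x).indicator 1 s := by
    intro s
    by_cases h1 : 0 < s
    · by_cases h2 : s < x
      · rw [indicator_of_mem (by exact h1), indicator_of_mem (by exact h2),
          indicator_of_mem (by exact ⟨h1, h2⟩)]
      · rw [indicator_of_mem (by exact h1), indicator_of_notMem (by exact h2),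
          indicator_of_notMem (by exact fun h => h2 h.2)]
    · rw [indicator_of_notMem (by exact h1), indicator_of_notMem (by exact fun h => h1 h.1)]
  have h2 : (fun s : ℝ => (Ioi (0 : ℝ)).indicator (fun s => (Iio x).indicator (1 : ℝ → ℝ≥0∞) s) s) =
      (Ioo 0 x).indicator 1 := funext this
  rw [h2, lintegral_indicator_one measurableSet_Ioo, Real.volume_Ioo, sub_zero]

theorem En_layer (h : E m → ℝ) (hh : Measurable h) :
    En m (fun y => ENNReal.ofReal (h y)) =
      ∫⁻ r : ℝ × ℝ, E2 m {y | r.1 < h y} {y | r.2 < h y}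
        ∂((volume.restrict (Ioi 0)).prod (volume.restrict (Ioi 0))) := by
  have hbm := br_meas m
  have hbm2 : Measurable fun z : E m × E m => br m (z.2 - z.1) :=
    hbm.comp (measurable_snd.sub measurable_fst)
  unfold En
  have h1 := lintegral_prod (μ := (volume : Measure (E m))) (ν := (volume : Measure (E m)))
    (fun z : E m × E m => ENNReal.ofReal (h z.1) * ENNReal.ofReal (h z.2) * br m (z.2 - z.1))
    (by fun_prop)
  rw [← h1]
  have hI : Measurable fun q : (E m × E m) × (ℝ × ℝ) =>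
      (Iio (h q.1.1)).indicator (1 : ℝ → ℝ≥0∞) q.2.1 := by
    have : (fun q : (E m × E m) × (ℝ × ℝ) => (Iio (h q.1.1)).indicator (1 : ℝ → ℝ≥0∞) q.2.1) =
        ({q : (E m × E m) × (ℝ × ℝ) | q.2.1 < h q.1.1}).indicator 1 := by
      ext q
      by_cases hq : q.2.1 < h q.1.1
      · rw [indicator_of_mem (by exact hq), indicator_of_mem (by exact hq)]; rfl
      · rw [indicator_of_notMem (by exact hq), indicator_of_notMem (by exact hq)]
    rw [this]
    exact measurable_one.indicator (measurableSet_lt (by fun_prop) (by fun_prop))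
  have hJ : Measurable fun q : (E m × E m) × (ℝ × ℝ) =>
      (Iio (h q.1.2)).indicator (1 : ℝ → ℝ≥0∞) q.2.2 := by
    have : (fun q : (E m × E m) × (ℝ × ℝ) => (Iio (h q.1.2)).indicator (1 : ℝ → ℝ≥0∞) q.2.2) =
        ({q : (E m × E m) × (ℝ × ℝ) | q.2.2 < h q.1.2}).indicator 1 := by
      ext q
      by_cases hq : q.2.2 < h q.1.2
      · rw [indicator_of_mem (by exact hq), indicator_of_mem (by exact hq)]; rfl
      · rw [indicator_of_notMem (by exact hq), indicator_of_notMem (by exact hq)]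
    rw [this]
    exact measurable_one.indicator (measurableSet_lt (by fun_prop) (by fun_prop))
  have h2 : ∀ z : E m × E m, ENNReal.ofReal (h z.1) * ENNReal.ofReal (h z.2) * br m (z.2 - z.1) =
      ∫⁻ r : ℝ × ℝ, (Iio (h z.1)).indicator (1 : ℝ → ℝ≥0∞) r.1 *
        (Iio (h z.2)).indicator (1 : ℝ → ℝ≥0∞) r.2 * br m (z.2 - z.1)
        ∂((volume.restrict (Ioi 0)).prod (volume.restrict (Ioi 0))) := by
    intro z
    rw [layer (h z.1), layer (h z.2), ← lintegral_prod_mul
      (measurable_one.indicator measurableSet_Iio).aemeasurable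
      (measurable_one.indicator measurableSet_Iio).aemeasurable, lintegral_mul_const]
    have a1 : Measurable ((Iio (h z.1)).indicator (1 : ℝ → ℝ≥0∞)) :=
      measurable_one.indicator measurableSet_Iio
    have a2 : Measurable ((Iio (h z.2)).indicator (1 : ℝ → ℝ≥0∞)) :=
      measurable_one.indicator measurableSet_Iio
    exact (a1.comp measurable_fst).mul (a2.comp measurable_snd)
  simp_rw [h2]
  rw [lintegral_lintegral_swap]
  · refine lintegral_congr fun r => ?_
    have hA : MeasurableSet {y : E m | r.1 < h y} := measurableSet_lt measurable_const hh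
    have hB : MeasurableSet {y : E m | r.2 < h y} := measurableSet_lt measurable_const hh
    unfold E2
    rw [← lintegral_indicator hA]
    have h3 := lintegral_prod (μ := (volume : Measure (E m))) (ν := (volume : Measure (E m)))
      (fun z : E m × E m => (Iio (h z.1)).indicator (1 : ℝ → ℝ≥0∞) r.1 *
        (Iio (h z.2)).indicator (1 : ℝ → ℝ≥0∞) r.2 * br m (z.2 - z.1))
      (by
        have b1 : Measurable fun z : E m × E m => (z, r) := by fun_prop
        exact (((hI.comp b1).mul (hJ.comp b1)).mul hbm2).aemeasurable)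
    rw [h3]
    refine lintegral_congr fun y => ?_
    by_cases hy : r.1 < h y
    · rw [indicator_of_mem (by exact hy), ← lintegral_indicator hB]
      refine lintegral_congr fun w => ?_
      rw [indicator_of_mem (by exact hy)]
      by_cases hw : r.2 < h w
      · rw [indicator_of_mem (by exact hw), indicator_of_mem (by exact hw)]
        simp
      · rw [indicator_of_notMem (by exact hw), indicator_of_notMem (by exact hw)]
        simp
    · rw [indicator_of_notMem (by exact hy)]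
      have : ∀ w, (Iio (h y)).indicator (1 : ℝ → ℝ≥0∞) r.1 *
        (Iio (h w)).indicator (1 : ℝ → ℝ≥0∞) r.2 * br m (w - y) = 0 := by
        intro w
        rw [indicator_of_notMem (by exact hy)]
        simp
      simp_rw [this]
      exact lintegral_zero
  · exact ((hI.mul hJ).mul (hbm2.comp measurable_fst)).aemeasurable

/-- the integral of the distribution function against `t^(p-1)` -/
noncomputable def PP (m : ℕ) (h : E m → ℝ) : ℝ≥0∞ :=
  ∫⁻ t in Ioi (0 : ℝ), df h t * ENNReal.ofReal (t ^ (((m : ℝ) - 1) / (m + 1)))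

/-- the constant -/
noncomputable def cH (m : ℕ) : ℝ≥0∞ := ENNReal.ofReal (((m : ℝ) + 1) / m) ^ (((m : ℝ) - 1) / m)

theorem int_pow (t : ℝ) (ht : 0 < t) (hm : 2 ≤ m) :
    ∫⁻ s in Ioc (0 : ℝ) t, ENNReal.ofReal (s ^ (-(1 / ((m : ℝ) + 1)))) =
      ENNReal.ofReal (((m : ℝ) + 1) / m) * ENNReal.ofReal (t ^ ((m : ℝ) / (m + 1))) := by
  have hm' : (2 : ℝ) ≤ m := by exact_mod_cast hm
  have hr : -1 < -(1 / ((m : ℝ) + 1)) := by
    rw [neg_lt_neg_iff, div_lt_one (by linarith)]; linarith
  have h1 : IntegrableOn (fun s : ℝ => s ^ (-(1 / ((m : ℝ) + 1)))) (Ioc 0 t) :=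
    (intervalIntegrable_iff_integrableOn_Ioc_of_le ht.le).1
      (intervalIntegral.intervalIntegrable_rpow' hr)
  rw [← ofReal_integral_eq_lintegral_ofReal h1 ?_, ← intervalIntegral.integral_of_le ht.le,
    integral_rpow (Or.inl hr), ← ENNReal.ofReal_mul (by positivity)]
  · congr 1
    have e1 : -(1 / ((m : ℝ) + 1)) + 1 = (m : ℝ) / (m + 1) := by field_simp; ring
    rw [e1, Real.zero_rpow (by positivity), sub_zero]
    field_simp
  · rw [Filter.EventuallyLE, ae_restrict_iff' measurableSet_Ioc]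
    exact Filter.Eventually.of_forall fun s hs => Real.rpow_nonneg hs.1.le _

theorem inner_le (hm : 2 ≤ m) (h : E m → ℝ) (t : ℝ) (ht : 0 < t) :
    ∫⁻ s in Ioc (0 : ℝ) t, df h s ^ (1 / (m : ℝ)) ≤
      cH m * PP m h ^ (1 / (m : ℝ)) * ENNReal.ofReal (t ^ (((m : ℝ) - 1) / (m + 1))) := by
  have hm' : (2 : ℝ) ≤ m := by exact_mod_cast hm
  have hm0 : (0 : ℝ) < m := by linarith
  have hm1 : (0 : ℝ) < (m : ℝ) - 1 := by linarith
  have hm2 : (0 : ℝ) < (m : ℝ) + 1 := by linarith
  have hdm := df_meas h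
  have hpq : (m : ℝ).HolderConjugate ((m : ℝ) / (m - 1)) := by
    rw [Real.holderConjugate_iff]
    refine ⟨by linarith, ?_⟩
    field_simp
    ring
  set θ : ℝ := ((m : ℝ) - 1) / (m + 1) with hθ
  have hH := ENNReal.lintegral_mul_le_Lp_mul_Lq (volume.restrict (Ioc (0 : ℝ) t)) hpq
    (f := fun s => (df h s * ENNReal.ofReal (s ^ θ)) ^ (1 / (m : ℝ)))
    (g := fun s => ENNReal.ofReal (s ^ (-(θ / m))))
    (by fun_prop) (by fun_prop)
  have e1 : ∫⁻ s in Ioc (0 : ℝ) t, df h s ^ (1 / (m : ℝ)) = ∫⁻ s in Ioc (0 : ℝ) t,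
      ((fun s => (df h s * ENNReal.ofReal (s ^ θ)) ^ (1 / (m : ℝ))) *
        fun s => ENNReal.ofReal (s ^ (-(θ / m)))) s := by
    refine setLIntegral_congr_fun measurableSet_Ioc fun s hs => ?_
    simp only [Pi.mul_apply]
    rw [ENNReal.mul_rpow_of_nonneg _ _ (by positivity), ENNReal.ofReal_rpow_of_nonneg
      (Real.rpow_nonneg hs.1.le _) (by positivity), mul_assoc, ← ENNReal.ofReal_mul (by
        exact Real.rpow_nonneg (Real.rpow_nonneg hs.1.le _) _), ← Real.rpow_mul hs.1.le,
      ← Real.rpow_add hs.1]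
    have : θ * (1 / (m : ℝ)) + -(θ / m) = 0 := by ring
    rw [this, Real.rpow_zero, ENNReal.ofReal_one, mul_one]
  rw [e1]
  refine hH.trans ?_
  have e2 : (∫⁻ s in Ioc (0 : ℝ) t, ((df h s * ENNReal.ofReal (s ^ θ)) ^ (1 / (m : ℝ))) ^ (m : ℝ))
      ≤ PP m h := by
    have : ∀ s, ((df h s * ENNReal.ofReal (s ^ θ)) ^ (1 / (m : ℝ))) ^ (m : ℝ) =
        df h s * ENNReal.ofReal (s ^ θ) := by
      intro s
      rw [← ENNReal.rpow_mul, one_div, inv_mul_cancel₀ hm0.ne', ENNReal.rpow_one]
    simp_rw [this]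
    unfold PP
    exact lintegral_mono_set Ioc_subset_Ioi_self
  have e3 : (∫⁻ s in Ioc (0 : ℝ) t, ENNReal.ofReal (s ^ (-(θ / m))) ^ ((m : ℝ) / (m - 1))) =
      ENNReal.ofReal (((m : ℝ) + 1) / m) * ENNReal.ofReal (t ^ ((m : ℝ) / (m + 1))) := by
    rw [← int_pow t ht hm]
    refine setLIntegral_congr_fun measurableSet_Ioc fun s hs => ?_
    rw [ENNReal.ofReal_rpow_of_nonneg (Real.rpow_nonneg hs.1.le _) (by positivity),
      ← Real.rpow_mul hs.1.le]
    congr 2
    rw [hθ]
    field_simp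
  rw [e3]
  have e4 : 1 / ((m : ℝ) / (m - 1)) = ((m : ℝ) - 1) / m := by rw [one_div_div]
  rw [e4, ENNReal.mul_rpow_of_nonneg _ _ (by positivity), ENNReal.ofReal_rpow_of_nonneg
    (Real.rpow_nonneg ht.le _) (by positivity), ← Real.rpow_mul ht.le]
  have e5 : (m : ℝ) / (m + 1) * ((m - 1) / m) = θ := by
    rw [hθ]; field_simp
  rw [e5]
  have e6 := ENNReal.rpow_le_rpow e2 (by positivity : (0 : ℝ) ≤ 1 / (m : ℝ))
  calc _ ≤ PP m h ^ (1 / (m : ℝ)) * (ENNReal.ofReal (((m : ℝ) + 1) / m) ^ (((m : ℝ) - 1) / m) *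
        ENNReal.ofReal (t ^ θ)) := mul_le_mul' e6 le_rfl
    _ = _ := by unfold cH; ring

theorem E2_max (hm : 2 ≤ m) (h : E m → ℝ) (hh : Measurable h) (s t : ℝ) :
    E2 m {y | s < h y} {y | t < h y} ≤ (Rz m + 1) *
      ((Iic t).indicator (fun s => df h t * df h s ^ (1 / (m : ℝ))) s +
       (Iic s).indicator (fun t => df h s * df h t ^ (1 / (m : ℝ))) t) := by
  have hA : ∀ r : ℝ, MeasurableSet {y : E m | r < h y} := fun r => measurableSet_lt measurable_const hh
  rcases le_total s t with hst | hst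
  · rw [indicator_of_mem (show s ∈ Iic t from hst), E2_symm]
    exact (E2_le m (by omega) _ _ (hA s)).trans (mul_le_mul' le_rfl le_self_add)
  · rw [indicator_of_mem (show t ∈ Iic s from hst)]
    exact (E2_le m (by omega) _ _ (hA t)).trans (mul_le_mul' le_rfl le_add_self)

theorem hls0 (hm : 2 ≤ m) (h : E m → ℝ) (hh : Measurable h) :
    En m (fun y => ENNReal.ofReal (h y)) ≤
      (Rz m + 1) * (2 * cH m) * (PP m h ^ (1 / (m : ℝ)) * PP m h) := by
  have hdm := df_meas h
  rw [En_layer h hh]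
  set ρ : Measure ℝ := volume.restrict (Ioi 0) with hρ
  have hM : Measurable (Function.uncurry fun t s : ℝ =>
      (Iic t).indicator (fun s => df h t * df h s ^ (1 / (m : ℝ))) s) := by
    have : (Function.uncurry fun t s : ℝ =>
        (Iic t).indicator (fun s => df h t * df h s ^ (1 / (m : ℝ))) s) =
        ({q : ℝ × ℝ | q.2 ≤ q.1}).indicator fun q => df h q.1 * df h q.2 ^ (1 / (m : ℝ)) := by
      ext ⟨t, s⟩
      by_cases hq : s ≤ t
      · rw [indicator_of_mem (by exact hq)]
        simp only [Function.uncurry]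
        rw [indicator_of_mem (by exact hq)]
      · rw [indicator_of_notMem (by exact hq)]
        simp only [Function.uncurry]
        rw [indicator_of_notMem (by exact hq)]
    rw [this]
    refine Measurable.indicator (by fun_prop) (measurableSet_le measurable_snd measurable_fst)
  -- the half plane integral
  have hhalf : ∫⁻ t, ∫⁻ s, (Iic t).indicator (fun s => df h t * df h s ^ (1 / (m : ℝ))) s ∂ρ ∂ρ ≤
      cH m * (PP m h ^ (1 / (m : ℝ)) * PP m h) := by
    have h1 : ∀ᵐ t ∂ρ, ∫⁻ s, (Iic t).indicator (fun s => df h t * df h s ^ (1 / (m : ℝ))) s ∂ρ ≤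
        cH m * PP m h ^ (1 / (m : ℝ)) *
          (df h t * ENNReal.ofReal (t ^ (((m : ℝ) - 1) / (m + 1)))) := by
      rw [hρ, ae_restrict_iff' measurableSet_Ioi]
      refine Filter.Eventually.of_forall fun t ht => ?_
      rw [lintegral_indicator measurableSet_Iic, Measure.restrict_restrict measurableSet_Iic,
        inter_comm, Ioi_inter_Iic, lintegral_const_mul _ (by fun_prop)]
      refine (mul_le_mul' le_rfl (inner_le hm h t ht)).trans (le_of_eq ?_)
      ring
    refine (lintegral_mono_ae h1).trans (le_of_eq ?_)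
    rw [lintegral_const_mul _ (by fun_prop)]
    unfold PP
    ring
  calc ∫⁻ r : ℝ × ℝ, E2 m {y | r.1 < h y} {y | r.2 < h y} ∂(ρ.prod ρ)
      ≤ ∫⁻ r : ℝ × ℝ, (Rz m + 1) *
        ((Iic r.2).indicator (fun s => df h r.2 * df h s ^ (1 / (m : ℝ))) r.1 +
       (Iic r.1).indicator (fun t => df h r.1 * df h t ^ (1 / (m : ℝ))) r.2) ∂(ρ.prod ρ) :=
        lintegral_mono fun r => E2_max hm h hh r.1 r.2
    _ = (Rz m + 1) * ((∫⁻ r : ℝ × ℝ,
        (Iic r.2).indicator (fun s => df h r.2 * df h s ^ (1 / (m : ℝ))) r.1 ∂(ρ.prod ρ)) +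
        ∫⁻ r : ℝ × ℝ,
        (Iic r.1).indicator (fun t => df h r.1 * df h t ^ (1 / (m : ℝ))) r.2 ∂(ρ.prod ρ)) := by
        have a1 : Measurable fun r : ℝ × ℝ =>
            (Iic r.2).indicator (fun s => df h r.2 * df h s ^ (1 / (m : ℝ))) r.1 :=
          hM.comp measurable_swap
        have a2 : Measurable fun r : ℝ × ℝ =>
            (Iic r.1).indicator (fun t => df h r.1 * df h t ^ (1 / (m : ℝ))) r.2 := hM
        have a3 : Measurable fun r : ℝ × ℝ =>
            (Iic r.2).indicator (fun s => df h r.2 * df h s ^ (1 / (m : ℝ))) r.1 +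
            (Iic r.1).indicator (fun t => df h r.1 * df h t ^ (1 / (m : ℝ))) r.2 := a1.add a2
        rw [lintegral_const_mul _ a3, lintegral_add_left a1]
    _ = (Rz m + 1) * (2 * ∫⁻ t, ∫⁻ s,
        (Iic t).indicator (fun s => df h t * df h s ^ (1 / (m : ℝ))) s ∂ρ ∂ρ) := by
        have b1 := lintegral_prod_symm (μ := ρ) (ν := ρ) (fun r : ℝ × ℝ =>
          (Iic r.2).indicator (fun s => df h r.2 * df h s ^ (1 / (m : ℝ))) r.1)
          (hM.comp measurable_swap).aemeasurable
        have b2 := lintegral_prod (μ := ρ) (ν := ρ) (fun r : ℝ × ℝ =>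
          (Iic r.1).indicator (fun t => df h r.1 * df h t ^ (1 / (m : ℝ))) r.2)
          hM.aemeasurable
        rw [b1, b2, two_mul]
    _ ≤ (Rz m + 1) * (2 * (cH m * (PP m h ^ (1 / (m : ℝ)) * PP m h))) := by
        gcongr
    _ = _ := by ring

/-- the exponent `2m/(m+1)` -/
noncomputable def pe (m : ℕ) : ℝ := 2 * (m : ℝ) / (m + 1)

theorem PP_le (hm : 2 ≤ m) (h : E m → ℝ) (hh : Measurable h) (h0 : ∀ y, 0 ≤ h y) :
    PP m h ≤ ∫⁻ y, ENNReal.ofReal (h y) ^ pe m := by
  have hm' : (2 : ℝ) ≤ m := by exact_mod_cast hm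
  have hp : 1 ≤ pe m := by
    unfold pe; rw [le_div_iff₀ (by linarith)]; linarith
  have h1 := lintegral_rpow_eq_lintegral_meas_lt_mul (volume : Measure (E m))
    (Filter.Eventually.of_forall h0) hh.aemeasurable (p := pe m) (by linarith)
  have h2 : ∀ y, ENNReal.ofReal (h y) ^ pe m = ENNReal.ofReal (h y ^ pe m) := fun y =>
    ENNReal.ofReal_rpow_of_nonneg (h0 y) (by linarith)
  simp_rw [h2]
  rw [h1]
  have h3 : pe m - 1 = ((m : ℝ) - 1) / (m + 1) := by
    unfold pe
    have : (m : ℝ) + 1 ≠ 0 := by positivity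
    field_simp
    ring
  rw [h3]
  have h4 : (1 : ℝ≥0∞) ≤ ENNReal.ofReal (pe m) := by
    rw [← ENNReal.ofReal_one]; exact ENNReal.ofReal_le_ofReal hp
  calc PP m h = 1 * PP m h := (one_mul _).symm
    _ ≤ _ := mul_le_mul' h4 le_rfl

/-- the constant -/
noncomputable def Ch (m : ℕ) : ℝ≥0∞ := (Rz m + 1) * (2 * cH m)

theorem Ch_ne_top (hm : 2 ≤ m) : Ch m ≠ ∞ := by
  have hm' : (2 : ℝ) ≤ m := by exact_mod_cast hm
  unfold Ch cH
  refine ENNReal.mul_ne_top (ENNReal.add_ne_top.2 ⟨Rz_ne_top m (by omega), ENNReal.one_ne_top⟩)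
    (ENNReal.mul_ne_top (by simp) (ENNReal.rpow_ne_top_of_nonneg ?_ ENNReal.ofReal_ne_top))
  exact div_nonneg (by linarith) (by linarith)

/-- **the Hardy-Littlewood-Sobolev inequality** -/
theorem hls (hm : 2 ≤ m) (h : E m → ℝ) (hh : Measurable h) (h0 : ∀ y, 0 ≤ h y) :
    En m (fun y => ENNReal.ofReal (h y)) ≤
      Ch m * ((∫⁻ y, ENNReal.ofReal (h y) ^ pe m) ^ (1 / pe m)) ^ 2 := by
  have hm' : (2 : ℝ) ≤ m := by exact_mod_cast hm
  have hm0 : (0 : ℝ) < m := by linarith
  refine (hls0 hm h hh).trans ?_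
  have h1 := PP_le hm h hh h0
  set I : ℝ≥0∞ := ∫⁻ y, ENNReal.ofReal (h y) ^ pe m with hI
  have h2 : (I ^ (1 / pe m)) ^ 2 = I ^ (1 / (m : ℝ)) * I := by
    rw [← ENNReal.rpow_natCast, ← ENNReal.rpow_mul]
    nth_rewrite 3 [← ENNReal.rpow_one I]
    rw [← ENNReal.rpow_add_of_nonneg _ _ (by positivity) (by norm_num)]
    congr 1
    unfold pe
    push_cast
    field_simp
    ring
  rw [h2]
  unfold Ch
  gcongr

end Pool.Agent.N773.SC
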