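import Mathlib
import Pool.Agent.N773.SC.A
import Pool.Agent.N248.SD.H
set_option autoImplicit false

/-! The bilinear inequality for an operator with kernel `exp (2πi (⟪p ξ, u⟫ + ⟪q ξ, z⟫))`, tested
on convolutions of two functions of `u`. -/

namespace Pool.Agent.N773.SC

open MeasureTheory Complex Set
open scoped ENNReal RealInnerProductSpace ComplexConjugate
open Pool.Agent.R412.RT (ee ee_norm ee_cont ee_meas ee_add ee_conj Kg Kg_nonneg gauss_ft gexp_int)
open Pool.Agent.N248.SD (Mk Tk schwarz cc cc_norm cc_meas gm gd_meas gm_fin V V_meas fm br br_meas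
  En mono_lim)

variable {X : Type*} [MeasurableSpace X] {m k : ℕ}

theorem Mk_cc' (α β : Measure (E m)) [IsFiniteMeasure α] [IsFiniteMeasure β] (ε : ℝ) (hε : 0 < ε)
    (p : X → E m) (q : X → E k) (x : X × X) :
    Mk (α.prod (β.prod (gm k ε))) (cc p q) x = conj (fm α (p x.1 - p x.2)) *
      (fm β (p x.1 - p x.2) * (Kg k ε (q x.1 - q x.2) : ℂ)) := by
  haveI := gm_fin (k := k) ε hε
  unfold Mk
  have h1 : ∀ ω : E m × E m × E k, cc p q ω x.1 * conj (cc p q ω x.2) =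
      conj (ee ⟪p x.1 - p x.2, ω.1⟫) *
        (ee ⟪p x.1 - p x.2, ω.2.1⟫ * ee ⟪q x.1 - q x.2, ω.2.2⟫) := by
    intro ω
    unfold cc
    rw [ee_conj, ee_conj, ← ee_add, ← ee_add, ← ee_add]
    congr 1
    simp only [inner_sub_left, inner_sub_right]
    ring
  simp_rw [h1]
  rw [integral_prod_mul (μ := α) (ν := β.prod (gm k ε))
    (fun y : E m => conj (ee ⟪p x.1 - p x.2, y⟫))
    (fun w : E m × E k => ee ⟪p x.1 - p x.2, w.1⟫ * ee ⟪q x.1 - q x.2, w.2⟫),
    integral_prod_mul (μ := β) (ν := gm k ε)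
    (fun w : E m => ee ⟪p x.1 - p x.2, w⟫) (fun z : E k => ee ⟪q x.1 - q x.2, z⟫)]
  congr 1
  · unfold fm
    rw [← integral_conj]
  · congr 1
    unfold gm
    rw [integral_withDensity_eq_integral_toReal_smul (gd_meas ε)
      (Filter.Eventually.of_forall fun z => ENNReal.ofReal_lt_top), ← gauss_ft k ε hε]
    refine integral_congr_ae (Filter.Eventually.of_forall fun z => ?_)
    simp only
    rw [ENNReal.toReal_ofReal (Real.exp_nonneg _), Complex.real_smul]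

theorem key' (μ : Measure X) [SFinite μ] (α β : Measure (E m)) [IsFiniteMeasure α]
    [IsFiniteMeasure β] (ε : ℝ) (hε : 0 < ε)
    (p : X → E m) (q : X → E k) (hp : Measurable p) (hq : Measurable q)
    (φ : X → ℂ) (hφ : Integrable φ μ) (G : X → ℝ) (hG : Integrable G μ) (hG0 : ∀ x, 0 ≤ G x)
    (hφG : ∀ᵐ x ∂μ, ‖φ x‖ ≤ G x) :
    (∫⁻ ω, ‖V μ p q φ (ω.2.1 - ω.1) ω.2.2‖ₑ ^ 2 ∂(α.prod (β.prod (gm k ε)))) ^ 2 ≤
      (∫⁻ ω, ‖V μ p q (fun x => (G x : ℂ)) (ω.2.1 - ω.1) ω.2.2‖ₑ ^ 2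
        ∂(β.prod (β.prod (gm k ε)))) *
      ∫⁻ ω, ‖V μ p q (fun x => (G x : ℂ)) (ω.2.1 - ω.1) ω.2.2‖ₑ ^ 2
        ∂(α.prod (α.prod (gm k ε))) := by
  haveI := gm_fin (k := k) ε hε
  have hc := cc_meas p q hp hq
  have hM : ∀ (T : Measure (E m)) [IsFiniteMeasure T], ∀ z : X × X,
      Mk (T.prod (T.prod (gm k ε))) (cc p q) z =
      ((‖fm T (p z.1 - p z.2)‖ ^ 2 * Kg k ε (q z.1 - q z.2) : ℝ) : ℂ) := by
    intro T _ z
    rw [Mk_cc' T T ε hε, ← mul_assoc, ← Complex.normSq_eq_conj_mul_self,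
      Complex.normSq_eq_norm_sq]
    push_cast
    ring
  exact schwarz μ (α.prod (β.prod (gm k ε))) (β.prod (β.prod (gm k ε)))
    (α.prod (α.prod (gm k ε))) (cc p q) (cc p q) (cc p q) hc hc hc
    (cc_norm p q) (cc_norm p q) (cc_norm p q)
    (fun z => ‖fm β (p z.1 - p z.2)‖ ^ 2 * Kg k ε (q z.1 - q z.2))
    (fun z => ‖fm α (p z.1 - p z.2)‖ ^ 2 * Kg k ε (q z.1 - q z.2))
    (fun z => mul_nonneg (by positivity) (Kg_nonneg k ε hε _))
    (fun z => mul_nonneg (by positivity) (Kg_nonneg k ε hε _))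
    (hM β) (hM α)
    (fun z => by
      rw [Mk_cc' α β ε hε, norm_mul, norm_mul, Complex.norm_conj, Complex.norm_real,
        Real.norm_of_nonneg (Kg_nonneg k ε hε _)]
      apply le_of_eq
      ring)
    φ hφ G hG hG0 hφG

/-- integration against the product measure -/
theorem prod_lint (F₁ F₂ : E m → ℝ≥0∞) (h₁ : Measurable F₁) (h₂ : Measurable F₂)
    [SFinite ((volume : Measure (E m)).withDensity F₁)]
    [SFinite ((volume : Measure (E m)).withDensity F₂)]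
    (ε : ℝ) (hε : 0 < ε) (H : E m × E m × E k → ℝ≥0∞) (hH : Measurable H) :
    ∫⁻ ω, H ω ∂(((volume : Measure (E m)).withDensity F₁).prod
      (((volume : Measure (E m)).withDensity F₂).prod (gm k ε))) =
      ∫⁻ y, ∫⁻ w, F₁ y * F₂ w *
        ∫⁻ z, H (y, w, z) * ENNReal.ofReal (Real.exp (-ε * ‖z‖ ^ 2)) := by
  haveI := gm_fin (k := k) ε hε
  have hg : Measurable fun z : E k => ENNReal.ofReal (Real.exp (-ε * ‖z‖ ^ 2)) := gd_meas ε
  rw [lintegral_prod _ hH.aemeasurable, lintegral_withDensity_eq_lintegral_mul _ h₁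
    hH.lintegral_prod_right']
  refine lintegral_congr fun y => ?_
  rw [Pi.mul_apply]
  have hHy : Measurable fun w : E m × E k => H (y, w) := hH.comp measurable_prodMk_left
  rw [lintegral_prod _ hHy.aemeasurable, lintegral_withDensity_eq_lintegral_mul _ h₂
    hHy.lintegral_prod_right', ← lintegral_const_mul _ (h₂.mul hHy.lintegral_prod_right')]
  refine lintegral_congr fun w => ?_
  rw [Pi.mul_apply, ← mul_assoc]
  congr 1
  have hHw : Measurable fun z : E k => H (y, w, z) :=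
    hHy.comp measurable_prodMk_left
  unfold gm
  rw [lintegral_withDensity_eq_lintegral_mul _ (gd_meas ε) hHw]
  refine lintegral_congr fun z => ?_
  rw [Pi.mul_apply, mul_comm]

/-- the regularised fibre integral -/
noncomputable def kap (μ : Measure X) (p : X → E m) (q : X → E k) (φ : X → ℂ) (ε : ℝ) (u : E m) :
    ℝ≥0∞ := ∫⁻ z, ‖V μ p q φ u z‖ₑ ^ 2 * ENNReal.ofReal (Real.exp (-ε * ‖z‖ ^ 2))

theorem kap_meas (μ : Measure X) [SFinite μ] (p : X → E m) (q : X → E k) (hp : Measurable p)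
    (hq : Measurable q) (φ : X → ℂ) (hφ : StronglyMeasurable φ) (ε : ℝ) :
    Measurable (kap μ p q φ ε) := by
  have hV := V_meas μ p q hp hq φ hφ
  have h1 : Measurable fun y : E m × E k => ‖V μ p q φ y.1 y.2‖ₑ ^ 2 *
      ENNReal.ofReal (Real.exp (-ε * ‖y.2‖ ^ 2)) := by
    have : Measurable fun y : E m × E k => ‖V μ p q φ y.1 y.2‖ₑ ^ 2 := hV.enorm.pow_const 2
    exact this.mul ((gd_meas ε).comp measurable_snd)
  exact h1.lintegral_prod_right'

/-- the bilinear inequality for functions of finite mass, before the passage to the limit -/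
theorem pre (μ : Measure X) [SFinite μ] (p : X → E m) (q : X → E k) (hp : Measurable p)
    (hq : Measurable q) (φ : X → ℂ) (hφ : Integrable φ μ) (hφm : StronglyMeasurable φ)
    (G : X → ℝ) (hG : Integrable G μ) (hGm : StronglyMeasurable G) (hG0 : ∀ x, 0 ≤ G x)
    (hφG : ∀ᵐ x ∂μ, ‖φ x‖ ≤ G x) (K : ℝ≥0∞)
    (hK : ∀ u, ∫⁻ z, ‖V μ p q (fun x => (G x : ℂ)) u z‖ₑ ^ 2 ≤ K * br m u)
    (F₁ F₂ : E m → ℝ≥0∞) (h₁ : Measurable F₁) (h₂ : Measurable F₂) (i₁ : ∫⁻ y, F₁ y ≠ ∞)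
    (i₂ : ∫⁻ y, F₂ y ≠ ∞) (ε : ℝ) (hε : 0 < ε) :
    (∫⁻ y, ∫⁻ w, F₁ y * F₂ w * kap μ p q φ ε (w - y)) ^ 2 ≤
      (K * En m F₂) * (K * En m F₁) := by
  haveI := gm_fin (k := k) ε hε
  haveI : IsFiniteMeasure ((volume : Measure (E m)).withDensity F₁) :=
    isFiniteMeasure_withDensity i₁
  haveI : IsFiniteMeasure ((volume : Measure (E m)).withDensity F₂) :=
    isFiniteMeasure_withDensity i₂
  have h := key' μ ((volume : Measure (E m)).withDensity F₁)
    ((volume : Measure (E m)).withDensity F₂) ε hε p q hp hq φ hφ G hG hG0 hφG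
  have hGc : StronglyMeasurable fun x => (G x : ℂ) :=
    Complex.continuous_ofReal.comp_stronglyMeasurable hGm
  have hmeas : ∀ ψ : X → ℂ, StronglyMeasurable ψ →
      Measurable fun ω : E m × E m × E k => ‖V μ p q ψ (ω.2.1 - ω.1) ω.2.2‖ₑ ^ 2 := by
    intro ψ hψ
    have h3 : Measurable fun ω : E m × E m × E k => ((ω.2.1 - ω.1, ω.2.2) : E m × E k) := by
      fun_prop
    exact ((V_meas μ p q hp hq ψ hψ).comp h3).enorm.pow_const 2
  rw [prod_lint F₁ F₂ h₁ h₂ ε hε _ (hmeas φ hφm), prod_lint F₂ F₂ h₂ h₂ ε hε _ (hmeas _ hGc),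
    prod_lint F₁ F₁ h₁ h₁ ε hε _ (hmeas _ hGc)] at h
  refine h.trans ?_
  have hup : ∀ F : E m → ℝ≥0∞, Measurable F → ∫⁻ y, ∫⁻ w, F y * F w *
      ∫⁻ z, ‖V μ p q (fun x => (G x : ℂ)) (w - y) z‖ₑ ^ 2 *
        ENNReal.ofReal (Real.exp (-ε * ‖z‖ ^ 2)) ≤ K * En m F := by
    intro F hF
    refine le_trans ?_ (Pool.Agent.N248.SD.eup F (fun u => K * br m u) hF K fun x => le_rfl)
    refine lintegral_mono fun y => lintegral_mono fun w => mul_le_mul' le_rfl ?_
    refine le_trans (lintegral_mono fun z => ?_) (hK (w - y))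
    refine mul_le_of_le_one_right' ?_
    rw [← ENNReal.ofReal_one]
    refine ENNReal.ofReal_le_ofReal (Real.exp_le_one_iff.2 ?_)
    have : 0 ≤ ε * ‖z‖ ^ 2 := by positivity
    linarith
  exact mul_le_mul' (hup F₂ h₂) (hup F₁ h₁)

end Pool.Agent.N773.SC
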