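import Mathlib
import Pool.Agent.N773.SC.B
set_option autoImplicit false

/-! The bilinear inequality for all pairs of functions. -/

namespace Pool.Agent.N773.SC

open MeasureTheory Complex Set
open scoped ENNReal RealInnerProductSpace ComplexConjugate
open Pool.Agent.R412.RT (ee ee_norm ee_cont ee_meas ee_add ee_conj Kg Kg_nonneg gauss_ft gexp_int)
open Pool.Agent.N248.SD (Mk Tk schwarz cc cc_norm cc_meas gm gd_meas gm_fin V V_meas fm br br_meas
  En mono_lim)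

variable {X : Type*} [MeasurableSpace X] {m k : ℕ}

/-- truncation -/
noncomputable def tr (F : E m → ℝ≥0∞) (j : ℕ) (y : E m) : ℝ≥0∞ :=
  (Metric.closedBall (0 : E m) j).indicator (fun y => min (F y) j) y

theorem tr_meas (F : E m → ℝ≥0∞) (hF : Measurable F) (j : ℕ) : Measurable (tr F j) :=
  (hF.min measurable_const).indicator Metric.isClosed_closedBall.measurableSet

theorem tr_le (F : E m → ℝ≥0∞) (j : ℕ) (y : E m) : tr F j y ≤ F y := by
  unfold tr
  by_cases h : y ∈ Metric.closedBall (0 : E m) j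
  · rw [indicator_of_mem h]; exact min_le_left _ _
  · rw [indicator_of_notMem h]; exact zero_le

theorem tr_le2 (F : E m → ℝ≥0∞) (j : ℕ) (y : E m) :
    tr F j y ≤ (Metric.closedBall (0 : E m) j).indicator (fun _ => (j : ℝ≥0∞)) y := by
  unfold tr
  by_cases h : y ∈ Metric.closedBall (0 : E m) j
  · rw [indicator_of_mem h, indicator_of_mem h]; exact min_le_right _ _
  · rw [indicator_of_notMem h]; exact zero_le

theorem tr_ne_top (F : E m → ℝ≥0∞) (j : ℕ) (y : E m) : tr F j y ≠ ∞ := by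
  refine ne_top_of_le_ne_top ?_ (tr_le2 F j y)
  by_cases h : y ∈ Metric.closedBall (0 : E m) j
  · rw [indicator_of_mem h]; simp
  · rw [indicator_of_notMem h]; simp

theorem tr_int (F : E m → ℝ≥0∞) (j : ℕ) : ∫⁻ y, tr F j y ≠ ∞ := by
  refine ne_top_of_le_ne_top ?_ (lintegral_mono fun y => tr_le2 F j y)
  rw [lintegral_indicator Metric.isClosed_closedBall.measurableSet, lintegral_const,
    Measure.restrict_apply_univ]
  exact ENNReal.mul_ne_top (by simp) Metric.isBounded_closedBall.measure_lt_top.ne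

theorem tr_mono (F : E m → ℝ≥0∞) : Monotone (tr F) := by
  intro i j hij y
  unfold tr
  have hij' : (i : ℝ) ≤ j := by exact_mod_cast hij
  by_cases h : y ∈ Metric.closedBall (0 : E m) i
  · rw [indicator_of_mem h, indicator_of_mem (Metric.closedBall_subset_closedBall hij' h)]
    exact min_le_min le_rfl (by exact_mod_cast hij)
  · rw [indicator_of_notMem h]; exact zero_le

theorem tr_sup (F : E m → ℝ≥0∞) (y : E m) : ⨆ j, tr F j y = F y := by
  refine le_antisymm (iSup_le fun j => tr_le F j y) ?_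
  refine le_of_forall_lt fun c hc => ?_
  have hc' : c ≠ ∞ := (hc.trans_le le_top).ne
  obtain ⟨j₁, hj₁⟩ := exists_nat_gt c.toReal
  obtain ⟨j₂, hj₂⟩ := exists_nat_ge ‖y‖
  refine lt_of_lt_of_le ?_ (le_iSup _ (max j₁ j₂))
  unfold tr
  have hmem : y ∈ Metric.closedBall (0 : E m) ((max j₁ j₂ : ℕ) : ℝ) := by
    rw [mem_closedBall_zero_iff]
    exact hj₂.trans (by exact_mod_cast le_max_right _ _)
  rw [indicator_of_mem hmem, lt_min_iff]
  refine ⟨hc, ?_⟩
  have h1 : c < (j₁ : ℝ≥0∞) := by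
    rw [← ENNReal.ofReal_toReal hc', ← ENNReal.ofReal_natCast]
    exact (ENNReal.ofReal_lt_ofReal_iff_of_nonneg ENNReal.toReal_nonneg).2 hj₁
  exact h1.trans_le (by exact_mod_cast le_max_left _ _)

theorem sup_int (F Q : E m → ℝ≥0∞) (hF : Measurable F) (hQ : Measurable Q) (c : ℝ≥0∞)
    (h : ∀ j, ∫⁻ y, tr F j y * Q y ≤ c) : ∫⁻ y, F y * Q y ≤ c := by
  have h1 : ∀ y, F y * Q y = ⨆ j, tr F j y * Q y := by
    intro y
    rw [← ENNReal.iSup_mul, tr_sup]
  simp_rw [h1]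
  rw [lintegral_iSup (f := fun j y => tr F j y * Q y) (fun j => (tr_meas F hF j).mul hQ)
    (fun i j hij y => mul_le_mul' (tr_mono F hij y) le_rfl)]
  exact iSup_le h

/-- the Lebesgue norm with exponent `2m/(m+1)` -/
noncomputable def nr (F : E m → ℝ≥0∞) : ℝ≥0∞ := (∫⁻ y, F y ^ pe m) ^ (1 / pe m)

theorem pe_pos (hm : 2 ≤ m) : 0 < pe m := by
  have hm' : (2 : ℝ) ≤ m := by exact_mod_cast hm
  unfold pe; positivity

theorem nr_mono (hm : 2 ≤ m) (F H : E m → ℝ≥0∞) (h : ∀ y, F y ≤ H y) : nr F ≤ nr H := by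
  have := pe_pos hm
  exact ENNReal.rpow_le_rpow (lintegral_mono fun y => ENNReal.rpow_le_rpow (h y) this.le)
    (by positivity)

theorem hls_tr (hm : 2 ≤ m) (F : E m → ℝ≥0∞) (hF : Measurable F) (j : ℕ) :
    En m (tr F j) ≤ Ch m * nr (tr F j) ^ 2 := by
  have h1 := hls hm (fun y => (tr F j y).toReal) (tr_meas F hF j).ennreal_toReal
    (fun y => ENNReal.toReal_nonneg)
  have h2 : ∀ y, ENNReal.ofReal (tr F j y).toReal = tr F j y := fun y =>
    ENNReal.ofReal_toReal (tr_ne_top F j y)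
  simp_rw [h2] at h1
  exact h1

theorem sqrt_le {a b c d : ℝ≥0∞} (h : a ^ 2 ≤ (b * c ^ 2) * (b * d ^ 2)) : a ≤ b * c * d := by
  have h1 := ENNReal.rpow_le_rpow h (by norm_num : (0 : ℝ) ≤ 1 / 2)
  have e : ∀ t : ℝ≥0∞, (t ^ 2) ^ (1 / 2 : ℝ) = t := by
    intro t
    rw [← ENNReal.rpow_two, ← ENNReal.rpow_mul]
    norm_num
  have e2 : (b * c ^ 2) * (b * d ^ 2) = (b * c * d) ^ 2 := by ring
  rw [e2, e, e] at h1
  exact h1

/-- the fibre integral -/
noncomputable def kp (μ : Measure X) (p : X → E m) (q : X → E k) (φ : X → ℂ) (u : E m) : ℝ≥0∞ :=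
  ∫⁻ z, ‖V μ p q φ u z‖ₑ ^ 2

theorem kp_meas (μ : Measure X) [SFinite μ] (p : X → E m) (q : X → E k) (hp : Measurable p)
    (hq : Measurable q) (φ : X → ℂ) (hφ : StronglyMeasurable φ) :
    Measurable (kp μ p q φ) := by
  have hV := V_meas μ p q hp hq φ hφ
  have h1 : Measurable fun y : E m × E k => ‖V μ p q φ y.1 y.2‖ₑ ^ 2 := hV.enorm.pow_const 2
  exact h1.lintegral_prod_right'

/-- the bilinear inequality for truncated functions -/
theorem pre2 (hm : 2 ≤ m) (μ : Measure X) [SFinite μ] (p : X → E m) (q : X → E k)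
    (hp : Measurable p)
    (hq : Measurable q) (φ : X → ℂ) (hφ : Integrable φ μ) (hφm : StronglyMeasurable φ)
    (G : X → ℝ) (hG : Integrable G μ) (hGm : StronglyMeasurable G) (hG0 : ∀ x, 0 ≤ G x)
    (hφG : ∀ᵐ x ∂μ, ‖φ x‖ ≤ G x) (K : ℝ≥0∞)
    (hK : ∀ u, ∫⁻ z, ‖V μ p q (fun x => (G x : ℂ)) u z‖ₑ ^ 2 ≤ K * br m u)
    (F₁ F₂ : E m → ℝ≥0∞) (h₁ : Measurable F₁) (h₂ : Measurable F₂) (i j : ℕ) :
    ∫⁻ y, tr F₁ i y * ∫⁻ w, tr F₂ j w * kp μ p q φ (w - y) ≤
      (K * Ch m) * nr F₁ * nr F₂ := by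
  have m₁ := tr_meas F₁ h₁ i
  have m₂ := tr_meas F₂ h₂ j
  have hV := V_meas μ p q hp hq φ hφm
  -- the triple integral
  set H : E m × E m × E k → ℝ≥0∞ := fun ω =>
    tr F₁ i ω.1 * (tr F₂ j ω.2.1 * ‖V μ p q φ (ω.2.1 - ω.1) ω.2.2‖ₑ ^ 2) with hH
  have hVm : Measurable fun ω : E m × E m × E k => ‖V μ p q φ (ω.2.1 - ω.1) ω.2.2‖ₑ ^ 2 := by
    have h3 : Measurable fun ω : E m × E m × E k => ((ω.2.1 - ω.1, ω.2.2) : E m × E k) := by
      fun_prop
    exact (hV.comp h3).enorm.pow_const 2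
  have hHm : Measurable H :=
    (m₁.comp measurable_fst).mul ((m₂.comp (measurable_fst.comp measurable_snd)).mul hVm)
  have hgen : ∀ g : E k → ℝ≥0∞, Measurable g → ∫⁻ ω, H ω * g ω.2.2 =
      ∫⁻ y, tr F₁ i y * ∫⁻ w, tr F₂ j w * ∫⁻ z, ‖V μ p q φ (w - y) z‖ₑ ^ 2 * g z := by
    intro g hg
    have hHg : Measurable fun ω : E m × E m × E k => H ω * g ω.2.2 := by fun_prop
    rw [Measure.volume_eq_prod, lintegral_prod _ hHg.aemeasurable]
    refine lintegral_congr fun y => ?_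
    have hHy : Measurable fun w : E m × E k => H (y, w) * g w.2 := hHg.comp measurable_prodMk_left
    have hVy : Measurable fun w : E m × E k => ‖V μ p q φ (w.1 - y) w.2‖ₑ ^ 2 := by
      have h3 : Measurable fun w : E m × E k => ((w.1 - y, w.2) : E m × E k) := by
        fun_prop
      exact (hV.comp h3).enorm.pow_const 2
    have hin : Measurable fun w : E m => ∫⁻ z, ‖V μ p q φ (w - y) z‖ₑ ^ 2 * g z := by
      have : Measurable fun w : E m × E k => ‖V μ p q φ (w.1 - y) w.2‖ₑ ^ 2 * g w.2 :=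
        hVy.mul (hg.comp measurable_snd)
      exact this.lintegral_prod_right'
    have hm2 : Measurable fun w : E m => tr F₂ j w * ∫⁻ z, ‖V μ p q φ (w - y) z‖ₑ ^ 2 * g z :=
      m₂.mul hin
    rw [Measure.volume_eq_prod, lintegral_prod _ hHy.aemeasurable, ← lintegral_const_mul _ hm2]
    refine lintegral_congr fun w => ?_
    have hVw : Measurable fun z : E k => ‖V μ p q φ (w - y) z‖ₑ ^ 2 := by
      have h3 : Measurable fun z : E k => ((w - y, z) : E m × E k) := by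
        fun_prop
      exact (hV.comp h3).enorm.pow_const 2
    have hVg : Measurable fun z : E k => ‖V μ p q φ (w - y) z‖ₑ ^ 2 * g z := hVw.mul hg
    have hVg2 : Measurable fun z : E k => tr F₂ j w * (‖V μ p q φ (w - y) z‖ₑ ^ 2 * g z) :=
      hVg.const_mul _
    rw [← lintegral_const_mul _ hVg, ← lintegral_const_mul _ hVg2]
    refine lintegral_congr fun z => ?_
    simp only [hH]
    ring
  have h0 := hgen (fun _ => 1) measurable_const
  simp only [mul_one] at h0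
  have hgoal : ∫⁻ y, tr F₁ i y * ∫⁻ w, tr F₂ j w * kp μ p q φ (w - y) = ∫⁻ ω, H ω := by
    rw [h0]; rfl
  rw [hgoal]
  refine mono_lim _ H hHm (fun ω : E m × E m × E k => ‖ω.2.2‖ ^ 2) (by fun_prop)
    (fun ω => by positivity) _ ?_
  intro ε hε
  have h1 := hgen (fun z => ENNReal.ofReal (Real.exp (-ε * ‖z‖ ^ 2))) (gd_meas ε)
  have h2 := pre μ p q hp hq φ hφ hφm G hG hGm hG0 hφG K hK (tr F₁ i) (tr F₂ j) m₁ m₂
    (tr_int F₁ i) (tr_int F₂ j) ε hε
  have h3 : ∫⁻ ω, H ω * ENNReal.ofReal (Real.exp (-ε * ‖ω.2.2‖ ^ 2)) =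
      ∫⁻ y, ∫⁻ w, tr F₁ i y * tr F₂ j w * kap μ p q φ ε (w - y) := by
    refine h1.trans (lintegral_congr fun y => ?_)
    have hkm := kap_meas μ p q hp hq φ hφm ε
    have hkm2 : Measurable fun w : E m => kap μ p q φ ε (w - y) :=
      hkm.comp (measurable_id.sub_const y)
    have hm3 : Measurable fun w : E m => tr F₂ j w * kap μ p q φ ε (w - y) := m₂.mul hkm2
    have e1 : (∫⁻ w, tr F₂ j w * ∫⁻ z, ‖V μ p q φ (w - y) z‖ₑ ^ 2 *
        ENNReal.ofReal (Real.exp (-ε * ‖z‖ ^ 2))) = ∫⁻ w, tr F₂ j w * kap μ p q φ ε (w - y) := rfl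
    rw [e1, ← lintegral_const_mul _ hm3]
    refine lintegral_congr fun w => ?_
    rw [← mul_assoc]
  rw [h3]
  refine sqrt_le (h2.trans ?_)
  have h4 := hls_tr hm F₁ h₁ i
  have h5 := hls_tr hm F₂ h₂ j
  have h6 := nr_mono hm _ _ (tr_le F₁ i)
  have h7 := nr_mono hm _ _ (tr_le F₂ j)
  calc K * En m (tr F₂ j) * (K * En m (tr F₁ i))
      ≤ K * (Ch m * nr F₂ ^ 2) * (K * (Ch m * nr F₁ ^ 2)) := by
        have h8 : En m (tr F₂ j) ≤ Ch m * nr F₂ ^ 2 := h5.trans (by gcongr)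
        have h9 : En m (tr F₁ i) ≤ Ch m * nr F₁ ^ 2 := h4.trans (by gcongr)
        gcongr
    _ = _ := by ring

/-- **the bilinear inequality** -/
theorem bil (hm : 2 ≤ m) (μ : Measure X) [SFinite μ] (p : X → E m) (q : X → E k)
    (hp : Measurable p)
    (hq : Measurable q) (φ : X → ℂ) (hφ : Integrable φ μ) (hφm : StronglyMeasurable φ)
    (G : X → ℝ) (hG : Integrable G μ) (hGm : StronglyMeasurable G) (hG0 : ∀ x, 0 ≤ G x)
    (hφG : ∀ᵐ x ∂μ, ‖φ x‖ ≤ G x) (K : ℝ≥0∞)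
    (hK : ∀ u, ∫⁻ z, ‖V μ p q (fun x => (G x : ℂ)) u z‖ₑ ^ 2 ≤ K * br m u)
    (F₁ F₂ : E m → ℝ≥0∞) (h₁ : Measurable F₁) (h₂ : Measurable F₂) :
    ∫⁻ y, F₁ y * ∫⁻ w, F₂ w * kp μ p q φ (w - y) ≤ (K * Ch m) * nr F₁ * nr F₂ := by
  have hk := kp_meas μ p q hp hq φ hφm
  have hk2 : Measurable fun z : E m × E m => kp μ p q φ (z.2 - z.1) :=
    hk.comp (measurable_snd.sub measurable_fst)
  have hQ : ∀ H : E m → ℝ≥0∞, Measurable H → Measurable fun y =>
      ∫⁻ w, H w * kp μ p q φ (w - y) := by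
    intro H hH
    have : Measurable fun z : E m × E m => H z.2 * kp μ p q φ (z.2 - z.1) :=
      (hH.comp measurable_snd).mul hk2
    exact this.lintegral_prod_right'
  have hR : ∀ H : E m → ℝ≥0∞, Measurable H → Measurable fun w =>
      ∫⁻ y, H y * kp μ p q φ (w - y) := by
    intro H hH
    have : Measurable fun z : E m × E m => H z.2 * kp μ p q φ (z.1 - z.2) :=
      (hH.comp measurable_snd).mul (hk.comp (measurable_fst.sub measurable_snd))
    exact this.lintegral_prod_right'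
  have hswap : ∀ H₁ H₂ : E m → ℝ≥0∞, Measurable H₁ → Measurable H₂ →
      ∫⁻ y, H₁ y * ∫⁻ w, H₂ w * kp μ p q φ (w - y) =
      ∫⁻ w, H₂ w * ∫⁻ y, H₁ y * kp μ p q φ (w - y) := by
    intro H₁ H₂ hH₁ hH₂
    have e1 : ∀ y, H₁ y * ∫⁻ w, H₂ w * kp μ p q φ (w - y) =
        ∫⁻ w, H₁ y * (H₂ w * kp μ p q φ (w - y)) := by
      intro y
      rw [lintegral_const_mul]
      exact hH₂.mul (hk.comp (measurable_id.sub_const y))
    have e2 : ∀ w, H₂ w * ∫⁻ y, H₁ y * kp μ p q φ (w - y) =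
        ∫⁻ y, H₂ w * (H₁ y * kp μ p q φ (w - y)) := by
      intro w
      rw [lintegral_const_mul]
      exact hH₁.mul (hk.comp (measurable_const.sub measurable_id))
    simp_rw [e1, e2]
    rw [lintegral_lintegral_swap]
    · refine lintegral_congr fun w => lintegral_congr fun y => ?_
      ring
    · exact ((hH₁.comp measurable_fst).mul ((hH₂.comp measurable_snd).mul hk2)).aemeasurable
  refine sup_int F₁ _ h₁ (hQ F₂ h₂) _ fun i => ?_
  rw [hswap _ _ (tr_meas F₁ h₁ i) h₂]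
  refine sup_int F₂ _ h₂ (hR _ (tr_meas F₁ h₁ i)) _ fun j => ?_
  rw [← hswap _ _ (tr_meas F₁ h₁ i) (tr_meas F₂ h₂ j)]
  exact pre2 hm μ p q hp hq φ hφ hφm G hG hGm hG0 hφG K hK F₁ F₂ h₁ h₂ i j

end Pool.Agent.N773.SC
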