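import Mathlib
import Pool.Agent.N773.SC.C
import Pool.Agent.TH335.RF.P2
import Pool.Agent.H438R2.BR.T10
set_option autoImplicit false

/-! The sphere. -/

namespace Pool.Agent.N773.SC

open MeasureTheory Complex Set Metric
open scoped ENNReal RealInnerProductSpace ComplexConjugate
open Pool.Agent.R412.RT (ee ee_norm ee_cont ee_meas ee_add ee_conj)
open Pool.Agent.N248.SD (V V_meas br br_meas asm pr qr pr_asm inner_asm norm_asm cov2 pr_cont
  qr_cont Jk Jk_ne_top fibre)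

/-- surface measure on the unit sphere -/
noncomputable def sigma (n : ℕ) : Measure (sphere (0 : E n) 1) := (volume : Measure (E n)).toSphere

instance (n : ℕ) : IsFiniteMeasure (sigma n) := by unfold sigma; infer_instance

/-- the Fourier transform of the measure `f dσ` -/
noncomputable def ft {n : ℕ} (f : sphere (0 : E n) 1 → ℂ) (ξ : E n) : ℂ :=
  ∫ x, Complex.exp (-(2 * Real.pi * ⟪(x : E n), ξ⟫ : ℝ) * I) * f x ∂(sigma n)

theorem ft_one (n : ℕ) (hn : 1 ≤ n) (ξ : E (n + 1)) :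
    ft (fun _ => (1 : ℂ)) ξ = ((Pool.Agent.H789R2.FR.sg n).real univ : ℂ) *
      Pool.Agent.H438R2.BR.Phi (n + 1) (2 * Real.pi * ‖ξ‖) := by
  have h := Pool.Agent.H438R2.BR.sphere_ft (n + 1) (by omega) ((2 * Real.pi) • ξ)
  rw [norm_smul, Real.norm_of_nonneg (by positivity)] at h
  rw [show n + 1 - 1 = n from rfl] at h
  rw [← h]
  unfold ft Pool.Agent.H789R2.FR.sg sigma
  rw [(MeasurableEmbedding.subtype_coe isClosed_sphere.measurableSet).integral_map]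
  refine integral_congr_ae (Filter.Eventually.of_forall fun x => ?_)
  simp only
  rw [mul_one, real_inner_smul_left, real_inner_comm]

theorem decay (n : ℕ) (hn : 1 ≤ n) : ∃ C : ℝ, 0 ≤ C ∧ ∀ ξ : E (n + 1),
    ‖ft (fun _ => (1 : ℂ)) ξ‖ ^ 2 ≤ C * (1 + ‖ξ‖ ^ 2) ^ (-((n : ℝ) / 2)) := by
  obtain ⟨c, C₀, hC₀, hP⟩ := Pool.Agent.TH335.RF.phi_asym (n + 1) (by omega)
  set s : ℝ := (Pool.Agent.H789R2.FR.sg n).real univ with hs
  have hs0 : 0 ≤ s := measureReal_nonneg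
  set D : ℝ := 2 * ‖c‖ + C₀ with hD
  have hD0 : 0 ≤ D := by positivity
  have hn0 : (0 : ℝ) ≤ n := Nat.cast_nonneg n
  have hPhi : ∀ t : ℝ, 0 < t → ‖Pool.Agent.H438R2.BR.Phi (n + 1) t‖ ≤ D * t ^ (-((n : ℝ) / 2)) := by
    intro t ht
    have h1 := hP t ht
    have e : (-(((n + 1 : ℕ) : ℝ) - 1) / 2) = -((n : ℝ) / 2) := by push_cast; ring
    rw [e] at h1
    set r : ℝ := t ^ (-((n : ℝ) / 2)) with hr
    have hr0 : 0 < r := Real.rpow_pos_of_pos ht _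
    have h2 : ‖((r : ℝ) : ℂ) * Pool.Agent.TH335.RF.mt c t‖ ≤ r * (2 * ‖c‖) := by
      rw [norm_mul, Complex.norm_real, Real.norm_of_nonneg hr0.le]
      exact mul_le_mul_of_nonneg_left (Pool.Agent.TH335.RF.norm_mt c t) hr0.le
    have h3 : r / (1 + t) ≤ r := div_le_self hr0.le (by linarith)
    have h4 := norm_sub_norm_le (Pool.Agent.H438R2.BR.Phi (n + 1) t)
      (((r : ℝ) : ℂ) * Pool.Agent.TH335.RF.mt c t)
    have h5 : C₀ * (r / (1 + t)) ≤ C₀ * r := mul_le_mul_of_nonneg_left h3 hC₀.le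
    rw [hD]
    nlinarith
  have hB : ∀ t : ℝ, ‖Pool.Agent.H438R2.BR.Phi (n + 1) t‖ ≤ Real.pi := fun t =>
    Pool.Agent.H438R2.BR.Phi_le (n + 1) (by omega) t
  refine ⟨(s * (D + Real.pi)) ^ 2 * 2 ^ ((n : ℝ) / 2), by positivity, fun ξ => ?_⟩
  rw [ft_one n hn, norm_mul, Complex.norm_real, Real.norm_of_nonneg hs0, mul_pow]
  set P : ℝ := ‖Pool.Agent.H438R2.BR.Phi (n + 1) (2 * Real.pi * ‖ξ‖)‖ with hPd
  have hP0 : 0 ≤ P := norm_nonneg _
  have hπ := Real.pi_pos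
  rcases le_or_gt ‖ξ‖ 1 with h1 | h1
  · have h2 : P ≤ D + Real.pi := (hB _).trans (by linarith)
    have h3 : (1 : ℝ) ≤ 2 ^ ((n : ℝ) / 2) * (1 + ‖ξ‖ ^ 2) ^ (-((n : ℝ) / 2)) := by
      rw [Real.rpow_neg (by positivity), ← div_eq_mul_inv, ← Real.div_rpow (by norm_num)
        (by positivity)]
      refine Real.one_le_rpow ?_ (by positivity)
      rw [le_div_iff₀ (by positivity)]
      nlinarith [norm_nonneg ξ]
    calc s ^ 2 * P ^ 2 ≤ s ^ 2 * (D + Real.pi) ^ 2 * 1 := by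
          rw [mul_one]
          exact mul_le_mul_of_nonneg_left (pow_le_pow_left₀ hP0 h2 2) (by positivity)
      _ ≤ s ^ 2 * (D + Real.pi) ^ 2 *
          (2 ^ ((n : ℝ) / 2) * (1 + ‖ξ‖ ^ 2) ^ (-((n : ℝ) / 2))) :=
          mul_le_mul_of_nonneg_left h3 (by positivity)
      _ = _ := by ring
  · have hξ0 : 0 < ‖ξ‖ := by linarith
    have h2 : P ≤ (D + Real.pi) * ‖ξ‖ ^ (-((n : ℝ) / 2)) := by
      have h3 := hPhi (2 * Real.pi * ‖ξ‖) (by positivity)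
      have h4 : (2 * Real.pi * ‖ξ‖) ^ (-((n : ℝ) / 2)) ≤ ‖ξ‖ ^ (-((n : ℝ) / 2)) := by
        refine Real.rpow_le_rpow_of_nonpos hξ0 ?_ (by linarith)
        nlinarith [Real.pi_gt_three]
      have h5 : 0 ≤ ‖ξ‖ ^ (-((n : ℝ) / 2)) := by positivity
      calc P ≤ D * (2 * Real.pi * ‖ξ‖) ^ (-((n : ℝ) / 2)) := h3
        _ ≤ D * ‖ξ‖ ^ (-((n : ℝ) / 2)) := mul_le_mul_of_nonneg_left h4 hD0
        _ ≤ _ := mul_le_mul_of_nonneg_right (by linarith) h5
    have h3 : (‖ξ‖ ^ (-((n : ℝ) / 2))) ^ 2 ≤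
        2 ^ ((n : ℝ) / 2) * (1 + ‖ξ‖ ^ 2) ^ (-((n : ℝ) / 2)) := by
      have e1 : (‖ξ‖ ^ (-((n : ℝ) / 2))) ^ 2 = (‖ξ‖ ^ 2) ^ (-((n : ℝ) / 2)) := by
        rw [← Real.rpow_natCast, ← Real.rpow_natCast, ← Real.rpow_mul hξ0.le,
          ← Real.rpow_mul hξ0.le]
        congr 1
        ring
      have e2 : 2 ^ ((n : ℝ) / 2) * (1 + ‖ξ‖ ^ 2) ^ (-((n : ℝ) / 2)) =
          ((1 + ‖ξ‖ ^ 2) / 2) ^ (-((n : ℝ) / 2)) := by
        rw [Real.div_rpow (by positivity) (by norm_num), Real.rpow_neg (by norm_num : (0:ℝ) ≤ 2)]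
        field_simp
      rw [e1, e2]
      refine Real.rpow_le_rpow_of_nonpos (by positivity) ?_ (by linarith)
      nlinarith
    calc s ^ 2 * P ^ 2 ≤ s ^ 2 * ((D + Real.pi) * ‖ξ‖ ^ (-((n : ℝ) / 2))) ^ 2 :=
          mul_le_mul_of_nonneg_left (pow_le_pow_left₀ hP0 h2 2) (by positivity)
      _ = s ^ 2 * (D + Real.pi) ^ 2 * (‖ξ‖ ^ (-((n : ℝ) / 2))) ^ 2 := by ring
      _ ≤ s ^ 2 * (D + Real.pi) ^ 2 *
          (2 ^ ((n : ℝ) / 2) * (1 + ‖ξ‖ ^ 2) ^ (-((n : ℝ) / 2))) :=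
          mul_le_mul_of_nonneg_left h3 (by positivity)
      _ = _ := by ring

variable {n m k : ℕ} (b : OrthonormalBasis (Fin m ⊕ Fin k) ℝ (E (n + 1)))

/-- the two phase maps -/
noncomputable def ps (x : sphere (0 : E (n + 1)) 1) : E m := pr b (-(x : E (n + 1)))
noncomputable def qs (x : sphere (0 : E (n + 1)) 1) : E k := qr b (-(x : E (n + 1)))

theorem ps_meas : Measurable (ps b) :=
  ((pr_cont b).comp (continuous_subtype_val.neg)).measurable
theorem qs_meas : Measurable (qs b) :=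
  ((qr_cont b).comp (continuous_subtype_val.neg)).measurable

theorem V_ft (φ : sphere (0 : E (n + 1)) 1 → ℂ) (u : E m) (z : E k) :
    V (sigma (n + 1)) (ps b) (qs b) φ u z = ft φ (asm b u z) := by
  unfold V ft ps qs
  refine integral_congr_ae (Filter.Eventually.of_forall fun x => ?_)
  simp only
  rw [← inner_asm b]
  unfold ee
  rw [inner_neg_left]
  congr 2
  push_cast
  ring

theorem ft_meas (φ : sphere (0 : E n) 1 → ℂ) (hφ : StronglyMeasurable φ) :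
    Measurable (ft φ) := by
  have : StronglyMeasurable (Function.uncurry fun (ξ : E n) (x : sphere (0 : E n) 1) =>
      Complex.exp (-(2 * Real.pi * ⟪(x : E n), ξ⟫ : ℝ) * I) * φ x) := by
    refine StronglyMeasurable.mul ?_ (hφ.comp_measurable measurable_snd)
    refine Measurable.stronglyMeasurable ?_
    have h1 : Measurable fun z : E n × sphere (0 : E n) 1 => (⟪(z.2 : E n), z.1⟫ : ℝ) :=
      Measurable.inner (measurable_subtype_coe.comp measurable_snd) measurable_fst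
    exact Complex.measurable_exp.comp ((Complex.measurable_ofReal.comp
      (h1.const_mul (2 * Real.pi))).neg.mul_const I)
  exact this.integral_prod_right.measurable

theorem fibS (hn : 1 ≤ n) (hmk : m + k = n + 1) (hkn : k < n) : ∃ K : ℝ≥0∞, K ≠ ∞ ∧
    ∀ (b : OrthonormalBasis (Fin m ⊕ Fin k) ℝ (E (n + 1))) (u : E m),
    ∫⁻ z, ‖V (sigma (n + 1)) (ps b) (qs b) (fun _ => (((1 : ℝ) : ℝ) : ℂ)) u z‖ₑ ^ 2 ≤
      K * br m u := by
  obtain ⟨C, hC, hd⟩ := decay n hn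
  refine ⟨ENNReal.ofReal C * Jk n k, ENNReal.mul_ne_top ENNReal.ofReal_ne_top
    (Jk_ne_top n k hkn), fun b u => ?_⟩
  have h1 : ∀ z : E k, ‖V (sigma (n + 1)) (ps b) (qs b) (fun _ => (((1 : ℝ) : ℝ) : ℂ)) u z‖ₑ ^ 2 ≤
      ENNReal.ofReal C * ENNReal.ofReal ((1 + (‖u‖ ^ 2 + ‖z‖ ^ 2)) ^ (-((n : ℝ) / 2))) := by
    intro z
    rw [V_ft, ← ENNReal.ofReal_mul hC, ← norm_asm b, ← ofReal_norm,
      ← ENNReal.ofReal_pow (norm_nonneg _)]
    refine ENNReal.ofReal_le_ofReal ?_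
    simp only [Complex.ofReal_one]
    exact hd _
  refine (lintegral_mono h1).trans (le_of_eq ?_)
  rw [lintegral_const_mul _ (by fun_prop), fibre n m k hmk u, mul_assoc]

/-- the convolution -/
noncomputable def cv {m : ℕ} (F₁ F₂ : E m → ℝ≥0∞) (u : E m) : ℝ≥0∞ := ∫⁻ y, F₁ y * F₂ (u - y)

theorem nr_neg {m : ℕ} (F : E m → ℝ≥0∞) : nr (fun y => F (-y)) = nr F := by
  unfold nr
  congr 1
  exact lintegral_neg_eq_self (fun y => F y ^ pe m)

theorem main (hm : 2 ≤ m) (hn : 1 ≤ n) (hmk : m + k = n + 1) : ∃ K : ℝ≥0∞, K ≠ ∞ ∧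
    ∀ (b : OrthonormalBasis (Fin m ⊕ Fin k) ℝ (E (n + 1))) (φ : sphere (0 : E (n + 1)) 1 → ℂ),
    StronglyMeasurable φ → (∀ᵐ x ∂(sigma (n + 1)), ‖φ x‖ ≤ 1) →
    ∀ F₁ F₂ : E m → ℝ≥0∞, Measurable F₁ → Measurable F₂ →
      ∫⁻ ξ, ‖ft φ ξ‖ₑ ^ 2 * cv F₁ F₂ (pr b ξ) ≤ K * nr F₁ * nr F₂ := by
  obtain ⟨K, hK, hfib⟩ := fibS (n := n) (m := m) (k := k) hn hmk (by omega)
  refine ⟨K * Ch m, ENNReal.mul_ne_top hK (Ch_ne_top hm), ?_⟩
  intro b φ hφm hφ1 F₁ F₂ h₁ h₂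
  have hφi : Integrable φ (sigma (n + 1)) :=
    Integrable.of_bound hφm.aestronglyMeasurable 1 hφ1
  have hp := ps_meas b
  have hq := qs_meas b
  have h1 := bil hm (sigma (n + 1)) (ps b) (qs b) hp hq φ hφi hφm (fun _ => (1 : ℝ))
    (integrable_const _) stronglyMeasurable_const (fun _ => zero_le_one) hφ1 K (hfib b)
    (fun y => F₁ (-y)) F₂ (h₁.comp measurable_neg) h₂
  rw [nr_neg] at h1
  refine le_trans (le_of_eq ?_) h1
  have hkm := kp_meas (sigma (n + 1)) (ps b) (qs b) hp hq φ hφm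
  have hcm : Measurable (cv F₁ F₂) := by
    have : Measurable fun z : E m × E m => F₁ z.2 * F₂ (z.1 - z.2) :=
      (h₁.comp measurable_snd).mul (h₂.comp (measurable_fst.sub measurable_snd))
    exact this.lintegral_prod_right'
  have hfm := ft_meas φ hφm
  have hgm : Measurable fun ξ : E (n + 1) => ‖ft φ ξ‖ₑ ^ 2 * cv F₁ F₂ (pr b ξ) :=
    (hfm.enorm.pow_const 2).mul (hcm.comp (pr_cont b).measurable)
  rw [cov2 b _ hgm]
  have h2 : ∀ u : E m, ∫⁻ z : E k, ‖ft φ (asm b u z)‖ₑ ^ 2 * cv F₁ F₂ (pr b (asm b u z)) =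
      kp (sigma (n + 1)) (ps b) (qs b) φ u * cv F₁ F₂ u := by
    intro u
    have hV := V_meas (sigma (n + 1)) (ps b) (qs b) hp hq φ hφm
    have hVu : Measurable fun z : E k => ‖V (sigma (n + 1)) (ps b) (qs b) φ u z‖ₑ ^ 2 := by
      have h3 : Measurable fun z : E k => ((u, z) : E m × E k) := by fun_prop
      exact (hV.comp h3).enorm.pow_const 2
    unfold kp
    rw [← lintegral_mul_const _ hVu]
    refine lintegral_congr fun z => ?_
    rw [pr_asm, V_ft]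
  simp_rw [h2]
  set κ := kp (sigma (n + 1)) (ps b) (qs b) φ with hκ
  unfold cv
  have h3 : ∀ u : E m, κ u * ∫⁻ y, F₁ y * F₂ (u - y) = ∫⁻ y, κ u * (F₁ y * F₂ (u - y)) := by
    intro u
    rw [lintegral_const_mul _ (by fun_prop)]
  simp_rw [h3]
  rw [lintegral_lintegral_swap (by
    exact ((hkm.comp measurable_fst).mul ((h₁.comp measurable_snd).mul
      (h₂.comp (measurable_fst.sub measurable_snd)))).aemeasurable),
    ← lintegral_neg_eq_self (fun y : E m => ∫⁻ u, κ u * (F₁ y * F₂ (u - y)))]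
  refine lintegral_congr fun y => ?_
  have hm4 : Measurable fun w : E m => F₂ w * κ (w - y) :=
    h₂.mul (hkm.comp (measurable_id.sub_const y))
  rw [← lintegral_const_mul _ hm4, ← lintegral_sub_right_eq_self _ y]
  refine lintegral_congr fun w => ?_
  rw [sub_neg_eq_add, sub_add_cancel]
  ring

end Pool.Agent.N773.SC
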